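import Pool.Agent.Helper42.TG.Defs

/-!
# Project TG (MP_a41896_nt), packet TG-KLX: existence of the fields `κ`, `L`
-/

set_option autoImplicit false

open Polynomial

namespace Pool.Agent.Helper25.TG

open Height Height.AdmissibleAbsValues
open Pool.Agent.Helper42.TG (GK gm slow KL)

noncomputable section

variable {K : Type} [Field K] [NumberField K] {U : Ultrafilter ℕ} {T : ℕ → ℝ}

theorem ev_le (hT : ∀ R : ℝ, ∀ᶠ k in (U : Filter ℕ), R ≤ T k) (C η : ℝ) (hη : 0 < η) :
    ∀ᶠ k in (U : Filter ℕ), C ≤ η * T k := by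
  filter_upwards [hT (C / η)] with k hk
  rwa [div_le_iff₀' hη] at hk

theorem slow_const (hT : ∀ R : ℝ, ∀ᶠ k in (U : Filter ℕ), R ≤ T k) (a : K) :
    slow U T (gm U fun _ => a) :=
  ⟨fun _ => a, rfl, fun η hη => ev_le hT _ η hη⟩

theorem slow_add (hT : ∀ R : ℝ, ∀ᶠ k in (U : Filter ℕ), R ≤ T k) {x y : GK K U}
    (hx : slow U T x) (hy : slow U T y) : slow U T (x + y) := by
  obtain ⟨f, rfl, hf⟩ := hx
  obtain ⟨g, rfl, hg⟩ := hy
  refine ⟨fun k => f k + g k, rfl, fun η hη => ?_⟩
  filter_upwards [hf (η / 3) (by positivity), hg (η / 3) (by positivity),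
    ev_le hT (totalWeight K * Real.log 2) (η / 3) (by positivity)] with k h1 h2 h3
  have := logHeight₁_add_le (f k) (g k)
  linarith

theorem slow_mul {x y : GK K U} (hx : slow U T x) (hy : slow U T y) : slow U T (x * y) := by
  obtain ⟨f, rfl, hf⟩ := hx
  obtain ⟨g, rfl, hg⟩ := hy
  refine ⟨fun k => f k * g k, rfl, fun η hη => ?_⟩
  filter_upwards [hf (η / 2) (by positivity), hg (η / 2) (by positivity)] with k h1 h2
  have := logHeight₁_mul_le (f k) (g k)
  linarith

theorem slow_neg {x : GK K U} (hx : slow U T x) : slow U T (-x) := by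
  obtain ⟨f, rfl, hf⟩ := hx
  refine ⟨fun k => - f k, rfl, fun η hη => ?_⟩
  filter_upwards [hf η hη] with k h1
  rwa [logHeight₁_neg]

theorem slow_inv {x : GK K U} (hx : slow U T x) : slow U T x⁻¹ := by
  obtain ⟨f, rfl, hf⟩ := hx
  refine ⟨fun k => (f k)⁻¹, rfl, fun η hη => ?_⟩
  filter_upwards [hf η hη] with k h1
  rwa [logHeight₁_inv]

/-- the slow field -/
def SF (hT : ∀ R : ℝ, ∀ᶠ k in (U : Filter ℕ), R ≤ T k) : Subfield (GK K U) where
  carrier := {z | slow U T z}
  zero_mem' := slow_const hT 0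
  one_mem' := slow_const hT 1
  add_mem' := slow_add hT
  mul_mem' := slow_mul
  neg_mem' := slow_neg
  inv_mem' := fun _ => slow_inv

/-- constants -/
def cg (K : Type) [Field K] (U : Ultrafilter ℕ) : K →+* GK K U where
  toFun a := gm U fun _ => a
  map_one' := rfl
  map_mul' _ _ := rfl
  map_zero' := rfl
  map_add' _ _ := rfl

/-- constants are slow -/
def cs (hT : ∀ R : ℝ, ∀ᶠ k in (U : Filter ℕ), R ≤ T k) : K →+* SF (K := K) hT :=
  (cg K U).codRestrict (SF (K := K) hT) fun a => slow_const hT a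

theorem t_KLX : Pool.Agent.Helper42.TG.KLX := by
  intro K _ _ U T hT
  let L : Type := AlgebraicClosure (GK K U)
  let F : Subfield (GK K U) := SF hT
  let κ : IntermediateField F L := algebraicClosure F L
  haveI h1 : IsAlgClosed κ := IsAlgClosure.isAlgClosed F
  let a1 : Algebra K κ := ((algebraMap F κ).comp (cs hT)).toAlgebra
  let a2 : Algebra K L := ((algebraMap (GK K U) L).comp (cg K U)).toAlgebra
  refine ⟨κ, L, inferInstance, inferInstance, inferInstance, a1, inferInstance, a2, h1,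
    inferInstance, ?_, ?_⟩
  · exact IsScalarTower.of_algebraMap_eq fun x => rfl
  · refine ⟨fun a => rfl, fun z => ?_⟩
    have hz : z ∈ Set.range (algebraMap κ L) ↔ z ∈ κ :=
      ⟨fun ⟨x, hx⟩ => hx ▸ x.2, fun h => ⟨⟨z, h⟩, rfl⟩⟩
    rw [hz, mem_algebraicClosure_iff]
    constructor
    · rintro ⟨p, hp, hp0⟩
      refine ⟨p.map (algebraMap F (GK K U)), ?_, fun i => ?_, ?_⟩
      · rwa [Ne, Polynomial.map_eq_zero]
      · rw [Polynomial.coeff_map]
        exact (p.coeff i).2
      · rw [Polynomial.aeval_map_algebraMap]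
        exact hp0
    · rintro ⟨p, hp, hc, hp0⟩
      have h2 : p ∈ Polynomial.lifts (algebraMap F (GK K U)) := by
        rw [Polynomial.lifts_iff_coeff_lifts]
        intro n
        exact ⟨⟨p.coeff n, hc n⟩, rfl⟩
      obtain ⟨q, hq⟩ := (Polynomial.mem_lifts p).1 h2
      refine ⟨q, ?_, ?_⟩
      · rintro rfl
        apply hp
        rw [← hq, Polynomial.map_zero]
      · rw [← hq, Polynomial.aeval_map_algebraMap] at hp0
        exact hp0

end

end Pool.Agent.Helper25.TG
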