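import Pool.Agent.Helper3.TG.GoalsTr

/-!
# Project TG, TRANSFER: THX (the relation between `x(P)`, `x(Q)`, `x(P + Q)`)
-/

set_option autoImplicit false

namespace Pool.Agent.Helper25.TG.THX

open WeierstrassCurve
open Pool.Agent.Helper29.BL Pool.Agent.Helper42.SG Pool.Agent.Helper3.TG

theorem t (h : Pool.Agent.Helper42.SG.ELAW) : Pool.Agent.Helper3.TG.THX := by
  intro F _ _ W _ P Q h2 hP hQ hPQ
  have key := h F W P Q 0 h2 hP hQ (by simpa using hPQ)
  obtain ⟨-, -, -, h3, h4⟩ := key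
  rw [pow_zero, one_smul] at h3 h4
  simp only [law, Ph, Rr, Uh, Th, Sh, if_true, if_false, Bool.false_eq_true] at h3 h4
  have h5 : (2 : F) * TH W (xc P) (xc Q) (xc (P + Q)) = 0 := by
    unfold TH
    linear_combination (xc (P + Q)) * h3 * (-1) + h4
  exact (mul_eq_zero.mp h5).resolve_left h2

end Pool.Agent.Helper25.TG.THX
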